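import Pool.Agent.CBG.StmtsA

set_option autoImplicit false
set_option maxSynthPendingDepth 3

open scoped Manifold ContDiff Topology
open Set Filter MeasureTheory

namespace Pool.Agent.CBG.H23

theorem jet : JetStmt := by
  intro n H hs v z a b c a' b' c' ha hb hc
  have h1 : H 0 a' a = chr H 0 v z a := ha a
  have h2 : H 0 b' c = chr H 0 v v c := hb c
  have h3 : H 0 c' b = chr H 0 z z b := hc b
  have e1 := hs a a'
  have e2 := hs b c'
  unfold curv lin
  simp only [map_sub, ContinuousLinearMap.sub_apply]
  rw [← h1, ← h2, ← h3, e1, e2]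
  ring

end Pool.Agent.CBG.H23
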